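import Pool.Agent.Lib.MP_93437d_al.Defs
import Pool.Agent.Lib.MP_93437d_al.TT

open CategoryTheory MonoidalCategory Limits Pretriangulated Triangulated

namespace Pool.Agent.Results.MP_93437d_al.TensorNilpotent

open Pool.Agent.Lib.MP_93437d_al

universe w v u

theorem tensorNilpotent_of_whiskerRight {T : Type u} [Category.{v} T] [MonoidalCategory T]
    [Preadditive T] {W : T} (h : 𝟙_ T ⟶ W) (Z : T) (hh : h ▷ Z = 0) :
    IsTensorNilpotentOn h Z := by
  refine ⟨1, le_rfl, ?_⟩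
  have h1 : tpowHom h 1 = h ≫ (λ_ W).inv := by
    change (λ_ (𝟙_ T)).inv ≫ (𝟙 (𝟙_ T) ⊗ₘ h) = h ≫ (λ_ W).inv
    rw [MonoidalCategory.id_tensorHom]
    exact (MonoidalCategory.leftUnitor_inv_naturality h).symm
  rw [h1]
  change (h ≫ (λ_ W).inv) ▷ Z = 0
  rw [MonoidalCategory.comp_whiskerRight, hh, zero_comp]

theorem proj_ext_vanish {C : Type u} [Category.{v} C] [Abelian C] [HasDerivedCategory.{w} C]
    (P B : C) [Projective P] (m : ℤ) (hm : 0 < m)
    (f : (heartIncl C).obj P ⟶ ((heartIncl C).obj B)⟦m⟧) : f = 0 := by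
  haveI : HasExt.{max u v} C := HasExt.standard C
  obtain ⟨n, rfl⟩ : ∃ n : ℕ, m = ((n + 1 : ℕ) : ℤ) := ⟨(m - 1).toNat, by omega⟩
  let ι := (DerivedCategory.TStructure.t (C := C)).bounded.ι
  let g : (DerivedCategory.singleFunctor C 0).obj P ⟶
      ((DerivedCategory.singleFunctor C 0).obj B)⟦((n + 1 : ℕ) : ℤ)⟧ :=
    ι.map f ≫ (ι.commShiftIso ((n + 1 : ℕ) : ℤ)).hom.app ((heartIncl C).obj B)
  have hg : g = 0 := by
    let e : Abelian.Ext.{max u v} P B (n + 1) := Abelian.Ext.homEquiv.symm g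
    have he : e = 0 := Abelian.Ext.eq_zero_of_projective e
    have h1 : g = Abelian.Ext.homEquiv e := (Equiv.apply_symm_apply _ g).symm
    rw [h1, he]
    exact (Abelian.Ext.homAddEquiv (X := P) (Y := B) (n := n + 1)).map_zero
  apply ι.map_injective
  rw [ι.map_zero, ← cancel_mono ((ι.commShiftIso ((n + 1 : ℕ) : ℤ)).hom.app ((heartIncl C).obj B))]
  exact hg.trans zero_comp.symm

theorem result (k : Type*) [Field k] (C : Type u) [Category.{v} C] [Abelian C]
    [Linear k C] [MonoidalCategory C] [MonoidalPreadditive C] [MonoidalLinear k C]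
    [RigidCategory C] [IsFiniteTensorCategory k C] [HasDerivedCategory.{w} C]
    [MonoidalCategory (DerivedCategory.Bounded C)] [(heartIncl C).Monoidal]
    [∀ X : DerivedCategory.Bounded C, (tensorLeft X).CommShift ℤ]
    [∀ X : DerivedCategory.Bounded C, (tensorLeft X).IsTriangulated]
    [∀ X : DerivedCategory.Bounded C, (tensorRight X).CommShift ℤ]
    [∀ X : DerivedCategory.Bounded C, (tensorRight X).IsTriangulated]
    (X Y : DerivedCategory.Bounded C) (f : 𝟙_ (DerivedCategory.Bounded C) ⟶ X)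
    (g : 𝟙_ (DerivedCategory.Bounded C) ⟶ Y) (hfg : f ⊗ₘ g = 0) :
    ∃ Z : DerivedCategory.Bounded C, ¬ IsZero Z ∧
      (IsTensorNilpotentOn f Z ∨ IsTensorNilpotentOn g Z) := by
  have hF := (inferInstance : IsFiniteTensorCategory k C)
  haveI := hF.enough_projectives
  haveI := hF.artinian (𝟙_ C)
  -- the unit of `C` is nonzero and has only invertible nonzero endomorphisms
  have h0 : ¬ IsZero (𝟙_ C) := by
    intro hz
    have h1 : (fun c : k => (c • 𝟙 (𝟙_ C) : 𝟙_ C ⟶ 𝟙_ C)) 0 =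
        (fun c : k => (c • 𝟙 (𝟙_ C) : 𝟙_ C ⟶ 𝟙_ C)) 1 := hz.eq_of_src _ _
    exact zero_ne_one (hF.end_unit.1 h1)
  have hend : ∀ h : 𝟙_ C ⟶ 𝟙_ C, h ≠ 0 → IsIso h := by
    intro h hh
    obtain ⟨c, rfl⟩ := hF.end_unit.2 h
    have hc : c ≠ 0 := by
      rintro rfl
      exact hh (zero_smul k _)
    refine ⟨⟨c⁻¹ • 𝟙 (𝟙_ C), ?_, ?_⟩⟩
    · simp [smul_smul, hc]
    · simp [smul_smul, hc]
  haveI : Simple (𝟙_ C) := simple_unit h0 hend
  -- a nonzero projective object
  let P : C := Projective.over (𝟙_ C)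
  have hP : ¬ IsZero P := by
    intro hz
    apply h0
    rw [IsZero.iff_id_eq_zero, ← cancel_epi (Projective.π (𝟙_ C))]
    exact hz.eq_of_src _ _
  let t := (DerivedCategory.TStructure.t (C := C)).onBounded
  have hbd : ∀ X : DerivedCategory.Bounded C, t.bounded X := by
    intro X
    obtain ⟨⟨a, ha⟩, ⟨b, hb⟩⟩ := X.property
    exact ⟨⟨a, ⟨ha.ge⟩⟩, ⟨b, ⟨hb.le⟩⟩⟩
  have hi : ∀ A : C, t.IsLE ((heartIncl C).obj A) 0 ∧ t.IsGE ((heartIncl C).obj A) 0 := by
    intro A
    have h1 : DerivedCategory.TStructure.t.IsLE ((DerivedCategory.singleFunctor C 0).obj A) 0 :=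
      inferInstance
    have h2 : DerivedCategory.TStructure.t.IsGE ((DerivedCategory.singleFunctor C 0).obj A) 0 :=
      inferInstance
    exact ⟨⟨h1.le⟩, ⟨h2.ge⟩⟩
  have hess : ∀ X, t.IsLE X 0 → t.IsGE X 0 → ∃ A : C, Nonempty (X ≅ (heartIncl C).obj A) := by
    intro X h1 h2
    haveI h1' : X.obj.IsLE 0 := ⟨h1.le⟩
    haveI h2' : X.obj.IsGE 0 := ⟨h2.ge⟩
    obtain ⟨A, ⟨e⟩⟩ := DerivedCategory.exists_iso_singleFunctor_obj_of_isGE_of_isLE X.obj 0
    exact ⟨A, ⟨(DerivedCategory.TStructure.t (C := C)).bounded.fullyFaithfulι.preimageIso e⟩⟩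
  haveI : (heartIncl C).Full := by unfold heartIncl; infer_instance
  haveI : (heartIncl C).Faithful := by unfold heartIncl; infer_instance
  haveI : (heartIncl C).PreservesZeroMorphisms := ⟨fun A B => by
    apply (DerivedCategory.TStructure.t (C := C)).bounded.ι.map_injective
    rw [Functor.map_zero]⟩
  have hZ : ¬ IsZero ((heartIncl C).obj P) := by
    intro hz
    apply hP
    rw [IsZero.iff_id_eq_zero]
    apply (heartIncl C).map_injective
    exact hz.eq_of_src _ _
  have key := core t hbd (heartIncl C) hi hess P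
    (fun B m hm f => proj_ext_vanish P B m hm f)
    (fun A B a b ha hb => tensor_ne_zero ha hb) f g hfg
  -- tensor-nilpotency with `n = 1`
  have hnil : ∀ {W : DerivedCategory.Bounded C} (h : 𝟙_ (DerivedCategory.Bounded C) ⟶ W),
      h ▷ (heartIncl C).obj P = 0 → IsTensorNilpotentOn h ((heartIncl C).obj P) := by
    intro W h hh
    exact tensorNilpotent_of_whiskerRight h _ hh
  refine ⟨(heartIncl C).obj P, hZ, ?_⟩
  rcases key with h | h
  · exact Or.inl (hnil f h)
  · exact Or.inr (hnil g h)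

end Pool.Agent.Results.MP_93437d_al.TensorNilpotent
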